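import Pool.Agent.U167.SA.Stm8

/-! Project SA (helper167), package TWO: two patterns. -/

set_option autoImplicit false

namespace Pool.Agent.U925.SA

open H974 Finset Filter Topology MeasureTheory Pool.Agent.U167.SA

theorem rh_symm (s n k l : ℕ) : rh s n l k = rh s n k l := by
  unfold rh
  rw [min_comm (l:ℤ) k, min_comm ((n:ℤ) - 1 - l) ((n:ℤ) - 1 - k), abs_sub_comm (l:ℤ) k]

theorem box_bd {r : ℕ} {e : Edg} (he : e ∈ boxE r) :
    (-(r:ℤ) ≤ (src e).1 ∧ (src e).1 ≤ r ∧ -(r:ℤ) ≤ (src e).2 ∧ (src e).2 ≤ r) ∧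
    (-(r:ℤ) ≤ (tgt e).1 ∧ (tgt e).1 ≤ r ∧ -(r:ℤ) ≤ (tgt e).2 ∧ (tgt e).2 ≤ r) := by
  obtain ⟨x, y, _ | _⟩ := e
  · rw [mem_boxE_false] at he
    simp only [src, tgt]
    simp
    omega
  · rw [mem_boxE_true] at he
    simp only [src, tgt]
    simp
    omega

theorem st_iff {r n : ℕ} {k : ℤ} (h1 : (r:ℤ) ≤ k) (h2 : (r:ℤ) ≤ n - 1 - k) :
    ∀ e ∈ boxE r, (e ∈ StK n k ↔ e ∈ D0) := by
  intro e he
  obtain ⟨h3, h4⟩ := box_bd he
  unfold StK D0 Dw ht
  simp only [Set.mem_ofPred_eq]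
  constructor
  · rintro ⟨⟨h5, -, -⟩, h6, -, -⟩
    exact ⟨h5, h6⟩
  · rintro ⟨h5, h6⟩
    refine ⟨⟨h5, ?_, ?_⟩, h6, ?_, ?_⟩ <;> omega

theorem fr_top {r n : ℕ} {k : ℤ} (h2 : (r:ℤ) ≤ n - 1 - k) : Fr r (TpK n k) := by
  intro v hv hin
  have h1 : ht v = 2*n - 2*k := hv
  unfold ht at h1
  unfold inB inR at hin
  omega

theorem fr_far {r s : ℕ} {d : ℤ} (h : (r:ℤ) ≤ |d| - s - 1) {A : Set Vtx} (hA : ∀ v ∈ A, inB s v) :
    Fr r (tV d A) := by
  intro v hv hin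
  have h1 : inB s (v.1 - d, v.2 - d) := hA _ hv
  unfold inB inR at h1 hin
  simp only at h1
  rcases abs_cases d with ⟨h3, h4⟩ | ⟨h3, h4⟩ <;> omega

theorem out_LE {r s m : ℕ} {d : ℤ} (h : (r:ℤ) ≤ |d| - s - 1) (hm : m ≤ s) (W : Finset Edg → Prop) :
    OutE r (U167.SA.LE m W d) := by
  intro ω ω' hω
  have key : (boxE m).filter (fun e => tE d ω e = true) =
      (boxE m).filter (fun e => tE d ω' e = true) := by
    apply Finset.filter_congr
    intro e he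
    have h1 : ω (e.1 + d, e.2.1 + d, e.2.2) = ω' (e.1 + d, e.2.1 + d, e.2.2) := by
      apply hω
      intro hin
      have h2 := (box_bd hin).1
      have h3 := (box_bd he).1
      simp only [src] at h2 h3
      rcases abs_cases d with ⟨h4, h5⟩ | ⟨h4, h5⟩ <;> omega
    unfold tE
    rw [h1]
  unfold U167.SA.LE
  simp only [Set.mem_ofPred_eq]
  rw [key]

theorem one_pat (hP : PosStm) (hM : MeaStm) {α : ℝ} (hF : FactP D0 α) {c0 : ℝ} (hc0 : 0 < c0)
    (ht0 : Tendsto (fun n : ℕ => PE 0 (fun _ => True) D0 {((0:ℤ), (0:ℤ))} n * (n:ℝ)^((1:ℝ)/3)) atTop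
      (𝓝 c0)) (s m : ℕ) (W : Finset Edg → Prop) (A : Set Vtx) (c : ℝ)
    (hA : ∀ v ∈ A, inB s v)
    (hc : Tendsto (fun n : ℕ => PE m W D0 A n * (n:ℝ)^((1:ℝ)/3)) atTop (𝓝 c)) :
    ∃ (C : ℝ) (r0 : ℕ), 0 ≤ C ∧ ∀ (m' : ℕ) (W' : Finset Edg → Prop) (A' : Set Vtx), m' ≤ s →
      (∀ v ∈ A', inB s v) → ∀ n k l : ℕ, k < n → l < n → (r0:ℤ) ≤ rh s n k l →
      |percE.real (XE m W A n k ∩ XE m' W' A' n l) -
        (c / c0) * percE.real (X0 n k ∩ XE m' W' A' n l)| ≤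
      C * (rh s n k l : ℝ)^(-α) * percE.real (X0 n k ∩ XE m' W' A' n l) := by
  obtain ⟨C, r1, hC, H⟩ := hF s m 0 W (fun _ => True) D0 D0 A {((0:ℤ), (0:ℤ))}
    (fun _ _ => Iff.rfl) (fun _ _ => Iff.rfl) hA (by
      intro v hv
      rw [Set.mem_singleton_iff] at hv
      subst hv
      unfold inB inR
      simp) (fun n => (n:ℝ)^((1:ℝ)/3)) (fun n => (n:ℤ)) c c0 (fun n => by positivity)
    tendsto_natCast_atTop_atTop hc ht0 hc0
  refine ⟨C, r1 + s + 1, hC, ?_⟩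
  intro m' W' A' hm' hA' n k l hk hl hr
  obtain ⟨r, hr'⟩ : ∃ r : ℕ, (r:ℤ) = rh s n k l := ⟨(rh s n k l).toNat, by
    rw [Int.toNat_of_nonneg]; omega⟩
  have e1 : (r:ℤ) ≤ k := by
    rw [hr']; unfold rh; exact (min_le_left _ _).trans (min_le_left _ _)
  have e2 : (r:ℤ) ≤ n - 1 - k := by
    rw [hr']; unfold rh
    exact (min_le_right _ _).trans ((min_le_left _ _).trans (min_le_left _ _))
  have e3 : (r:ℤ) ≤ |(l:ℤ) - k| - s - 1 := by
    rw [hr', abs_sub_comm]; unfold rh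
    exact (min_le_right _ _).trans (min_le_right _ _)
  have hrr : r1 + s + 1 ≤ r := by
    have : ((r1 + s + 1 : ℕ) : ℤ) ≤ r := by rw [hr']; exact hr
    exact_mod_cast this
  have hloc : loc s D0 (StK n k) = StK n k := by
    ext e
    by_cases he : e ∈ boxE s
    · rw [loc_in he, st_iff e1 e2 e (boxE_mono (by omega) he)]
    · rw [loc_out he]
  have h1 := H r (by omega) (StK n k) (TpK n k) [(tV ((l:ℤ) - k) A', TpK n k)]
    (U167.SA.LE m' W' ((l:ℤ) - k)) (st_iff e1 e2) (fr_top e2) (by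
      intro q hq
      simp only [List.mem_singleton] at hq
      subst hq
      exact ⟨fr_far e3 hA', fr_top e2⟩) (hM m' W' A' n ((l:ℤ) - k)).2 (out_LE e3 hm' W')
  rw [hloc] at h1
  have h2 : (r:ℝ) = (rh s n k l : ℝ) := by
    rw [← hr']; simp
  rw [h2] at h1
  unfold X0
  rw [hP, hP]
  exact h1

theorem t_TWO : TwoStm := by
  intro hP hM α hα hF c0 hc0 ht0 s m m' W W' A A' c c' hm hm' hA hA' hc hc'
  obtain ⟨C1, r1, hC1, H1⟩ := one_pat hP hM hF hc0 ht0 s m W A c hA hc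
  obtain ⟨C2, r2, hC2, H2⟩ := one_pat hP hM hF hc0 ht0 s m' W' A' c' hA' hc'
  have hcn : 0 ≤ c := ge_of_tendsto' hc fun n => mul_nonneg (PE_nonneg _ _ _ _ _) (by positivity)
  have hcn' : 0 ≤ c' := ge_of_tendsto' hc' fun n => mul_nonneg (PE_nonneg _ _ _ _ _) (by positivity)
  refine ⟨C1 * (c' / c0 + C2) + (c / c0) * C2, r1 + r2 + 1, by positivity, ?_⟩
  intro n k l hk hl hr
  have h0 : (1:ℤ) ≤ rh s n k l := by push_cast at hr; omega
  have k1 := H1 m' W' A' hm' hA' n k l hk hl (by push_cast at hr; omega)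
  have k2 : |percE.real (X0 n k ∩ XE m' W' A' n l) - (c' / c0) * percE.real (X0 n k ∩ X0 n l)| ≤
      C2 * (rh s n k l : ℝ)^(-α) * percE.real (X0 n k ∩ X0 n l) := by
    have h := H2 0 (fun _ => True) {((0:ℤ), (0:ℤ))} (Nat.zero_le _) (by
      intro v hv
      rw [Set.mem_singleton_iff] at hv
      subst hv
      unfold inB inR
      simp) n l k hl hk (by rw [rh_symm]; push_cast at hr; omega)
    rw [rh_symm] at h
    have e1 : XE m' W' A' n l ∩ XE 0 (fun _ => True) {((0:ℤ), (0:ℤ))} n k =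
        X0 n k ∩ XE m' W' A' n l := Set.inter_comm _ _
    have e2 : X0 n l ∩ XE 0 (fun _ => True) {((0:ℤ), (0:ℤ))} n k = X0 n k ∩ X0 n l :=
      Set.inter_comm _ _
    rw [e1, e2] at h
    exact h
  have hp1 : (rh s n k l : ℝ)^(-α) ≤ 1 :=
    Real.rpow_le_one_of_one_le_of_nonpos (by exact_mod_cast h0) (by linarith)
  have hp0 : 0 ≤ (rh s n k l : ℝ)^(-α) :=
    Real.rpow_nonneg (by have h00 : (0:ℤ) ≤ rh s n k l := by omega
                         exact_mod_cast h00) _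
  have hd0 : 0 ≤ percE.real (X0 n k ∩ X0 n l) := measureReal_nonneg
  set p := (rh s n k l : ℝ)^(-α) with hp
  set a := percE.real (XE m W A n k ∩ XE m' W' A' n l) with ha
  set b := percE.real (X0 n k ∩ XE m' W' A' n l) with hb
  set d := percE.real (X0 n k ∩ X0 n l) with hd
  have hcc : 0 ≤ c / c0 := by positivity
  have hcc' : 0 ≤ c' / c0 := by positivity
  have hb1 : b ≤ (c' / c0 + C2) * d := by
    have h1 := (abs_le.1 k2).2
    have h2 : C2 * p * d ≤ C2 * d := by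
      have : C2 * p ≤ C2 * 1 := mul_le_mul_of_nonneg_left hp1 hC2
      nlinarith
    linarith
  calc |a - c / c0 * (c' / c0) * d| = |(a - c / c0 * b) + c / c0 * (b - c' / c0 * d)| := by
        congr 1; ring
    _ ≤ |a - c / c0 * b| + |c / c0 * (b - c' / c0 * d)| := abs_add_le _ _
    _ = |a - c / c0 * b| + c / c0 * |b - c' / c0 * d| := by rw [abs_mul, abs_of_nonneg hcc]
    _ ≤ C1 * p * b + c / c0 * (C2 * p * d) :=
        add_le_add k1 (mul_le_mul_of_nonneg_left k2 hcc)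
    _ ≤ C1 * p * ((c' / c0 + C2) * d) + c / c0 * (C2 * p * d) :=
        add_le_add (mul_le_mul_of_nonneg_left hb1 (mul_nonneg hC1 hp0)) le_rfl
    _ = (C1 * (c' / c0 + C2) + c / c0 * C2) * p * d := by ring

end Pool.Agent.U925.SA
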